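import Pool.Agent.Helper82.WR.UNQ

set_option autoImplicit false

/-! MP_b6a655_nt: module CPL, completeness of a finite separable extension of `k((t))`. -/

namespace Pool.Agent.Helper26.WR

open Pool.Agent.Helper21.DN

universe u

theorem cpl_add {F : Type u} [Field F] (v : AddValuation F (WithTop ℤ)) {a b : F} {g : WithTop ℤ}
    (ha : g ≤ v a) (hb : g ≤ v b) : g ≤ v (a + b) :=
  (le_min ha hb).trans (v.map_add a b)

/-- the digits -/
theorem cpl_step {k F : Type u} [Field k] [Field F] (κ : k →+* F) (v : AddValuation F (WithTop ℤ))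
    (htv : TV κ v) {e : F} (he : e ≠ 0) {n : ℤ} (hen : v e = ((n : ℤ) : WithTop ℤ)) {z : F}
    (hz : ((n : ℤ) : WithTop ℤ) ≤ v z) :
    ∃ c : k, ((n + 1 : ℤ) : WithTop ℤ) ≤ v (z - κ c * e) := by
  have h1 : unq_o v e = n := by
    have := unq_eq v he
    rw [hen] at this
    exact_mod_cast this.symm
  have h2 : v e⁻¹ = ((-n : ℤ) : WithTop ℤ) := by
    rw [unq_eq v (inv_ne_zero he), unq_inv v he, h1]
  have h3 : 0 ≤ v (z * e⁻¹) := by
    rw [v.map_mul, h2]
    have h4 : ((n : ℤ) : WithTop ℤ) + ((-n : ℤ) : WithTop ℤ) ≤ v z + ((-n : ℤ) : WithTop ℤ) := by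
      gcongr
    have h5 : ((n : ℤ) : WithTop ℤ) + ((-n : ℤ) : WithTop ℤ) = 0 := by
      rw [← WithTop.coe_add, add_neg_cancel]
      rfl
    rw [h5] at h4
    exact h4
  obtain ⟨c, hc⟩ := htv.const _ h3
  refine ⟨c, ?_⟩
  have h6 : z - κ c * e = (z * e⁻¹ - κ c) * e := by
    field_simp
  rw [h6, v.map_mul, hen]
  have h7 : (1 : WithTop ℤ) + ((n : ℤ) : WithTop ℤ) ≤ v (z * e⁻¹ - κ c) + ((n : ℤ) : WithTop ℤ) := by
    gcongr
  refine le_trans (le_of_eq ?_) h7
  have h8 : ((1 : ℤ) : WithTop ℤ) = 1 := rfl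
  rw [← h8, ← WithTop.coe_add, add_comm]

theorem st_CPL (h1 : ST_VAL.{u}) : ST_CPL.{u} := by
  classical
  intro k _ _ F _ _ _ _ v hv x hx
  obtain ⟨v', hv', htv'⟩ := h1 k F
  have hvv : v = v' := by
    apply AddValuation.ext
    intro z
    rw [hv, hv']
  subst hvv
  set κ : k →+* F := (algebraMap (LaurentSeries k) F).comp (κ0 k) with hκ
  obtain ⟨π, hπ⟩ := htv'.unif
  set d : ℕ := Module.finrank (LaurentSeries k) F with hd
  have hd1 : 1 ≤ d := Module.finrank_pos
  set T : F := algebraMap (LaurentSeries k) F val_t with hT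
  have hT0 : T ≠ 0 := by
    intro h
    exact val_t_ne ((algebraMap (LaurentSeries k) F).injective (by rw [← hT, h, map_zero]))
  have hπ0 : π ≠ 0 := by
    intro h
    rw [h, v.map_zero] at hπ
    exact absurd hπ (by simp)
  have hvT : unq_o v T = d := by
    have h2 := unq_eq v hT0
    rw [hv, val_eq hT0, val_o_t] at h2
    exact_mod_cast h2.symm
  have hvπ : unq_o v π = 1 := by
    have h2 := unq_eq v hπ0
    rw [hπ] at h2
    have h3 : ((1 : ℤ) : WithTop ℤ) = ((unq_o v π : ℤ) : WithTop ℤ) := h2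
    exact_mod_cast h3.symm
  -- the standard elements
  set e : ℕ → F := fun n => T ^ (n / d) * π ^ (n % d) with he
  have he0 : ∀ n, e n ≠ 0 := fun n => mul_ne_zero (pow_ne_zero _ hT0) (pow_ne_zero _ hπ0)
  have hev : ∀ n : ℕ, v (e n) = (((n : ℤ) : ℤ) : WithTop ℤ) := by
    intro n
    rw [unq_eq v (he0 n), he]
    rw [unq_mul v (pow_ne_zero _ hT0) (pow_ne_zero _ hπ0), unq_pow v hT0, unq_pow v hπ0, hvT, hvπ]
    congr 1
    have h3 := Nat.div_add_mod n d
    have h4 : ((n / d : ℕ) : ℤ) * d + ((n % d : ℕ) : ℤ) * 1 = ((d * (n / d) + n % d : ℕ) : ℤ) := by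
      push_cast
      ring
    rw [h4, h3]
  -- the digits of the limit
  have hstep : ∀ (n : ℕ) (s : F), ∃ c : k, ((n : ℤ) : WithTop ℤ) ≤ v (x (n + 1) - x 0 - s) →
      (((n : ℤ) + 1 : ℤ) : WithTop ℤ) ≤ v (x (n + 1) - x 0 - (s + κ c * e n)) := by
    intro n s
    by_cases h : ((n : ℤ) : WithTop ℤ) ≤ v (x (n + 1) - x 0 - s)
    · obtain ⟨c, hc⟩ := cpl_step κ v htv' (he0 n) (hev n) h
      refine ⟨c, fun _ => ?_⟩
      rw [← sub_sub]
      exact hc
    · exact ⟨0, fun h' => absurd h' h⟩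
  choose g hg using hstep
  let s : ℕ → F := fun n => Nat.rec 0 (fun n s => s + κ (g n s) * e n) n
  have hs0 : s 0 = 0 := rfl
  have hs1 : ∀ n, s (n + 1) = s n + κ (g n (s n)) * e n := fun n => rfl
  set c : ℕ → k := fun n => g n (s n) with hc
  have hs2 : ∀ n, s n = ∑ j ∈ Finset.range n, κ (c j) * e j := by
    intro n
    induction n with
    | zero => simp [hs0]
    | succ n ih => rw [Finset.sum_range_succ, ← ih, hs1]
  have hs3 : ∀ n : ℕ, ((n : ℤ) : WithTop ℤ) ≤ v (x n - x 0 - s n) := by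
    intro n
    induction n with
    | zero =>
      rw [hs0, sub_self, sub_zero, v.map_zero]
      exact le_top
    | succ n ih =>
      rw [hs1]
      have h3 : ((n : ℤ) : WithTop ℤ) ≤ v (x (n + 1) - x 0 - s n) := by
        have h4 : x (n + 1) - x 0 - s n = (x (n + 1) - x n) + (x n - x 0 - s n) := by ring
        rw [h4]
        exact cpl_add v (hx n) ih
      have h5 := hg n (s n) h3
      have h6 : ((n + 1 : ℕ) : ℤ) = (n : ℤ) + 1 := by push_cast; ring
      rw [h6]
      exact h5
  -- the limit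
  let φ : ℕ → ℕ → PowerSeries k := fun M i => PowerSeries.mk (fun j => c (d * (M + j) + i))
  have hφ : ∀ M i, φ M i = PowerSeries.X * φ (M + 1) i + PowerSeries.C (c (d * M + i)) := by
    intro M i
    ext j
    cases j with
    | zero => simp [φ]
    | succ j =>
      rw [map_add, PowerSeries.coeff_succ_X_mul, PowerSeries.coeff_C, if_neg (Nat.succ_ne_zero j),
        add_zero]
      simp only [φ, PowerSeries.coeff_mk]
      congr 2
      ring
  have hstrC : ∀ a : k, strA k F (PowerSeries.C a) = κ a := by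
    intro a
    change algebraMap (LaurentSeries k) F (HahnSeries.ofPowerSeries ℤ k (PowerSeries.C a)) = _
    rw [HahnSeries.ofPowerSeries_C]
    rfl
  have hstrX : strA k F PowerSeries.X = T := by
    change algebraMap (LaurentSeries k) F (HahnSeries.ofPowerSeries ℤ k PowerSeries.X) = _
    rw [HahnSeries.ofPowerSeries_X]
    rfl
  have hstrv : ∀ f : PowerSeries k, 0 ≤ v (strA k F f) := by
    intro f
    rw [hv]
    by_cases hf : strA k F f = 0
    · rw [hf, val_zero']
      exact le_top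
    · apply val_int
      refine ⟨Polynomial.X - Polynomial.C f, Polynomial.monic_X_sub_C f, ?_⟩
      simp
  set y : F := x 0 + ∑ i ∈ Finset.range d, strA k F (φ 0 i) * π ^ i with hy
  have hrem : ∀ M : ℕ, y - x 0 - s (d * M) =
      T ^ M * ∑ i ∈ Finset.range d, strA k F (φ M i) * π ^ i := by
    intro M
    induction M with
    | zero =>
      rw [mul_zero, hs0, hy, pow_zero, one_mul]
      ring
    | succ M ih =>
      have h3 : s (d * (M + 1)) = s (d * M) +
          ∑ i ∈ Finset.range d, κ (c (d * M + i)) * (T ^ M * π ^ i) := by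
        rw [hs2, hs2, mul_add, mul_one, Finset.sum_range_add]
        congr 1
        refine Finset.sum_congr rfl fun i hi => ?_
        have hi' := Finset.mem_range.1 hi
        rw [he]
        have h4 : (d * M + i) / d = M := by
          rw [Nat.mul_add_div (by omega), Nat.div_eq_of_lt hi', add_zero]
        have h5 : (d * M + i) % d = i := by
          rw [Nat.mul_add_mod, Nat.mod_eq_of_lt hi']
        simp only [h4, h5]
      have h6 : y - x 0 - s (d * (M + 1)) = (y - x 0 - s (d * M)) -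
          ∑ i ∈ Finset.range d, κ (c (d * M + i)) * (T ^ M * π ^ i) := by
        rw [h3]
        ring
      rw [h6, ih, Finset.mul_sum, Finset.mul_sum, ← Finset.sum_sub_distrib]
      refine Finset.sum_congr rfl fun i _ => ?_
      rw [hφ M i, map_add, map_mul, hstrC, hstrX]
      ring
  have hyv : ∀ M : ℕ, ((M : ℤ) : WithTop ℤ) ≤ v (y - x 0 - s (d * M)) := by
    intro M
    rw [hrem, v.map_mul, unq_eq v (pow_ne_zero M hT0), unq_pow v hT0, hvT]
    have h3 : 0 ≤ v (∑ i ∈ Finset.range d, strA k F (φ M i) * π ^ i) := by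
      apply AddValuation.map_le_sum
      intro i _
      rw [v.map_mul, unq_eq v (pow_ne_zero i hπ0), unq_pow v hπ0, hvπ]
      refine add_nonneg (hstrv _) ?_
      have h4 : (0 : ℤ) ≤ (i : ℤ) * 1 := by positivity
      exact_mod_cast h4
    have h5 : (M : ℤ) ≤ (M : ℤ) * d := by
      have : (1 : ℤ) ≤ d := by exact_mod_cast hd1
      nlinarith [Int.natCast_nonneg M]
    calc ((M : ℤ) : WithTop ℤ) ≤ (((M : ℤ) * d : ℤ) : WithTop ℤ) := by exact_mod_cast h5
      _ = (((M : ℤ) * d : ℤ) : WithTop ℤ) + 0 := by rw [add_zero]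
      _ ≤ _ := by gcongr
  have hmono : ∀ n j : ℕ, ((n : ℤ) : WithTop ℤ) ≤ v (x (n + j) - x n) := by
    intro n j
    induction j with
    | zero =>
      rw [add_zero, sub_self, v.map_zero]
      exact le_top
    | succ j ih =>
      have h4 : x (n + (j + 1)) - x n = (x (n + j + 1) - x (n + j)) + (x (n + j) - x n) := by
        rw [← add_assoc]
        ring
      rw [h4]
      refine cpl_add v (le_trans ?_ (hx (n + j))) ih
      have : (n : ℤ) ≤ ((n + j : ℕ) : ℤ) := by push_cast; omega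
      exact_mod_cast this
  refine ⟨y, fun n => ?_⟩
  obtain ⟨j, hj⟩ := Nat.exists_eq_add_of_le (show n ≤ d * n from Nat.le_mul_of_pos_left n hd1)
  have h4 : y - x n = (y - x 0 - s (d * n)) + (-(x (d * n) - x 0 - s (d * n)) +
      (x (n + j) - x n)) := by
    rw [← hj]
    ring
  rw [h4]
  refine cpl_add v (hyv n) (cpl_add v ?_ (hmono n j))
  rw [AddValuation.map_neg]
  refine le_trans ?_ (hs3 (d * n))
  have : (n : ℤ) ≤ ((d * n : ℕ) : ℤ) := by
    exact_mod_cast Nat.le_mul_of_pos_left n hd1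
  exact_mod_cast this

end Pool.Agent.Helper26.WR
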