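import Pool.Agent.Helper26.WR.Stmts
import Pool.Agent.Helper53.DN.VAL

set_option autoImplicit false

/-! MP_b6a655_nt: module UNQ, uniqueness of the extension of the valuation of `k((t))`. -/

namespace Pool.Agent.Helper26.WR

open Pool.Agent.Helper21.DN

universe u

section
variable {M : Type u} [Field M] (w : AddValuation M (WithTop ℤ))

/-- the value as an integer -/
noncomputable def unq_o (x : M) : ℤ := (w x).untopD 0

theorem unq_eq {x : M} (hx : x ≠ 0) : w x = ((unq_o w x : ℤ) : WithTop ℤ) := by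
  have h : w x ≠ ⊤ := fun h => hx ((AddValuation.top_iff w).1 h)
  obtain ⟨a, ha⟩ := WithTop.ne_top_iff_exists.1 h
  unfold unq_o
  rw [← ha]
  rfl

theorem unq_mul {x y : M} (hx : x ≠ 0) (hy : y ≠ 0) :
    unq_o w (x * y) = unq_o w x + unq_o w y := by
  have h := w.map_mul x y
  rw [unq_eq w hx, unq_eq w hy, unq_eq w (mul_ne_zero hx hy)] at h
  exact_mod_cast h

theorem unq_one : unq_o w (1 : M) = 0 := by
  have h := w.map_one
  rw [unq_eq w one_ne_zero] at h
  exact_mod_cast h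

theorem unq_inv {x : M} (hx : x ≠ 0) : unq_o w x⁻¹ = -unq_o w x := by
  have h := unq_mul w hx (inv_ne_zero hx)
  rw [mul_inv_cancel₀ hx, unq_one] at h
  omega

theorem unq_pow {x : M} (hx : x ≠ 0) (n : ℕ) : unq_o w (x ^ n) = n * unq_o w x := by
  induction n with
  | zero => simp [unq_one]
  | succ n ih =>
    rw [pow_succ, unq_mul w (pow_ne_zero n hx) hx, ih]
    push_cast
    ring

theorem unq_zpow {x : M} (hx : x ≠ 0) (m : ℤ) : unq_o w (x ^ m) = m * unq_o w x := by
  obtain ⟨n, rfl | rfl⟩ := m.eq_nat_or_neg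
  · rw [zpow_natCast, unq_pow w hx]
  · rw [zpow_neg, zpow_natCast, unq_inv w (pow_ne_zero n hx), unq_pow w hx]
    ring

end

theorem unq_ps {k : Type u} [Field k] (f : PowerSeries k) :
    0 ≤ (HahnSeries.ofPowerSeries ℤ k f).orderTop := by
  rw [HahnSeries.le_orderTop_iff_forall]
  intro j hj
  have hj' : j < 0 := by exact_mod_cast hj
  rw [HahnSeries.ofPowerSeries_apply]
  apply HahnSeries.embDomain_of_notMem_range
  rintro ⟨n, hn⟩
  have : (0 : ℤ) ≤ (n : ℤ) := Int.natCast_nonneg n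
  change (n : ℤ) = j at hn
  omega

/-- integral elements have nonnegative value -/
theorem unq_int {k : Type u} [Field k] {M : Type u} [Field M] [Algebra (LaurentSeries k) M]
    (w : AddValuation M (WithTop ℤ)) (C : ℕ)
    (hw : ∀ x : LaurentSeries k, w (algebraMap (LaurentSeries k) M x) = C • x.orderTop)
    {x : M} (hx : (strA k M).IsIntegralElem x) (hx0 : x ≠ 0) : 0 ≤ unq_o w x := by
  by_contra hneg
  obtain ⟨p, hp, he⟩ := hx
  rw [Polynomial.eval₂_eq_sum_range, Finset.sum_range_succ, hp.coeff_natDegree, map_one,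
    one_mul] at he
  have h1 : x ^ p.natDegree = -∑ i ∈ Finset.range p.natDegree, strA k M (p.coeff i) * x ^ i := by
    rw [eq_neg_iff_add_eq_zero, add_comm]
    exact he
  have h2 : ((p.natDegree * unq_o w x + 1 : ℤ) : WithTop ℤ) ≤
      w (∑ i ∈ Finset.range p.natDegree, strA k M (p.coeff i) * x ^ i) := by
    apply AddValuation.map_le_sum
    intro i hi
    have hi' := Finset.mem_range.1 hi
    rw [w.map_mul]
    have h3 : 0 ≤ w (strA k M (p.coeff i)) := by
      change 0 ≤ w (algebraMap (LaurentSeries k) M (HahnSeries.ofPowerSeries ℤ k (p.coeff i)))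
      rw [hw]
      exact nsmul_nonneg (unq_ps _) C
    have h4 : w (x ^ i) = ((i * unq_o w x : ℤ) : WithTop ℤ) := by
      rw [unq_eq w (pow_ne_zero i hx0), unq_pow w hx0]
    rw [h4]
    have h5 : (p.natDegree * unq_o w x + 1 : ℤ) ≤ i * unq_o w x := by
      have h6 : (i : ℤ) + 1 ≤ p.natDegree := by exact_mod_cast hi'
      have h7 : unq_o w x ≤ -1 := by omega
      nlinarith
    calc ((p.natDegree * unq_o w x + 1 : ℤ) : WithTop ℤ) ≤ ((i * unq_o w x : ℤ) : WithTop ℤ) := by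
          exact_mod_cast h5
      _ = 0 + ((i * unq_o w x : ℤ) : WithTop ℤ) := by rw [zero_add]
      _ ≤ _ := by gcongr
  have h8 : w (x ^ p.natDegree) =
      w (∑ i ∈ Finset.range p.natDegree, strA k M (p.coeff i) * x ^ i) := by
    rw [h1, AddValuation.map_neg]
  rw [← h8, unq_eq w (pow_ne_zero _ hx0), unq_pow w hx0] at h2
  have h9 : (p.natDegree * unq_o w x + 1 : ℤ) ≤ p.natDegree * unq_o w x := by exact_mod_cast h2
  omega

theorem unq_top (n : ℕ) (hn : 1 ≤ n) : n • (⊤ : WithTop ℤ) = ⊤ := by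
  obtain ⟨m, rfl⟩ := Nat.exists_eq_add_of_le' hn
  rw [succ_nsmul, add_top]

theorem st_UNQ (h1 : ST_VA.{u}) : ST_UNQ.{u} := by
  intro k _ _ M _ _ _ _ w C hC hw x
  have hn : 1 ≤ Module.finrank (LaurentSeries k) M := Module.finrank_pos
  by_cases hx0 : x = 0
  · rw [hx0, w.map_zero, val_zero', unq_top _ hn, unq_top _ hC]
  obtain ⟨B, hB, _, _, ϖ, hϖB, hϖ0, _, hϖ⟩ := h1 k M
  have hu : ∀ y ∈ B, y⁻¹ ∈ B → y ≠ 0 → unq_o w y = 0 := by
    intro y hy hy' h0
    have e1 := unq_int w C hw ((hB y).1 hy) h0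
    have e2 := unq_int w C hw ((hB _).1 hy') (inv_ne_zero h0)
    rw [unq_inv w h0] at e2
    omega
  have hu' : ∀ y ∈ B, y⁻¹ ∈ B → y ≠ 0 → val_o k y = 0 := by
    intro y hy hy' h0
    have e1 : 0 ≤ val_o k y := by
      have := val_int ((hB y).1 hy)
      rw [val_eq h0] at this
      exact_mod_cast this
    have e2 : 0 ≤ val_o k y⁻¹ := by
      have := val_int ((hB _).1 hy')
      rw [val_eq (inv_ne_zero h0)] at this
      exact_mod_cast this
    rw [val_o_inv h0] at e2
    omega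
  have hval : ∀ (m : ℤ) (y : M), y ∈ B → y⁻¹ ∈ B → y ≠ 0 →
      unq_o w (y * ϖ ^ m) = m * unq_o w ϖ ∧ val_o k (y * ϖ ^ m) = m * val_o k ϖ := by
    intro m y hy hy' h0
    rw [unq_mul w h0 (zpow_ne_zero m hϖ0), hu y hy hy' h0, unq_zpow w hϖ0, zero_add,
      val_o_mul h0 (zpow_ne_zero m hϖ0), hu' y hy hy' h0, val_o_zpow hϖ0, zero_add]
    exact ⟨rfl, rfl⟩
  have ht0 : algebraMap (LaurentSeries k) M val_t ≠ 0 := by
    intro h
    exact val_t_ne ((algebraMap (LaurentSeries k) M).injective (by rw [h, map_zero]))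
  have htw : unq_o w (algebraMap (LaurentSeries k) M val_t) = C := by
    have h2 := hw val_t
    rw [unq_eq w ht0] at h2
    have h3 : (val_t : LaurentSeries k).orderTop = ((1 : ℤ) : WithTop ℤ) := by
      unfold val_t
      rw [HahnSeries.orderTop_single one_ne_zero]
    rw [h3, ← WithTop.coe_nsmul] at h2
    have h4 : unq_o w (algebraMap (LaurentSeries k) M val_t) = C • (1 : ℤ) := by exact_mod_cast h2
    rw [h4]
    simp
  obtain ⟨e, y, hyB, hyB', hy0, hte⟩ := hϖ _ ht0
  obtain ⟨m, z, hzB, hzB', hz0, hxe⟩ := hϖ x hx0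
  have k1 := hval e y hyB hyB' hy0
  have k2 := hval m z hzB hzB' hz0
  rw [← hte, htw, val_o_t] at k1
  rw [← hxe] at k2
  rw [unq_eq w hx0, val_eq hx0, ← WithTop.coe_nsmul, ← WithTop.coe_nsmul, k2.1, k2.2]
  congr 1
  rw [nsmul_eq_mul, nsmul_eq_mul]
  have k3 : (C : ℤ) = e * unq_o w ϖ := k1.1
  have k4 : ((Module.finrank (LaurentSeries k) M : ℕ) : ℤ) = e * val_o k ϖ := k1.2
  rw [k3, k4]
  ring

end Pool.Agent.Helper26.WR
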